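import Pool.Agent.Q181.Ponag.Game

open Set Topology Filter

namespace MP4977a6

/-- A copy of `Y`, to carry the topology in which a set `W` is open iff every point `x ∈ W` has a
neighborhood `U`, open in `Y`, with `U ∖ W` countable. -/
@[ext] structure Ext (Y : Type*) where
  /-- the underlying point -/
  pt : Y

variable {Y : Type*} [TopologicalSpace Y]

instance : TopologicalSpace (Ext Y) where
  IsOpen W := ∀ x ∈ W, ∃ U : Set Y, IsOpen U ∧ x.pt ∈ U ∧ (Ext.pt ⁻¹' U \ W).Countable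
  isOpen_univ := fun x _ => ⟨univ, isOpen_univ, mem_univ _, by simp⟩
  isOpen_inter := by
    intro W₁ W₂ h₁ h₂ x hx
    obtain ⟨U₁, hU₁, hx₁, hc₁⟩ := h₁ x hx.1
    obtain ⟨U₂, hU₂, hx₂, hc₂⟩ := h₂ x hx.2
    refine ⟨U₁ ∩ U₂, hU₁.inter hU₂, ⟨hx₁, hx₂⟩, (hc₁.union hc₂).mono ?_⟩
    rintro y ⟨⟨hy₁, hy₂⟩, hy⟩
    by_cases h : y ∈ W₁
    · exact Or.inr ⟨hy₂, fun h' => hy ⟨h, h'⟩⟩
    · exact Or.inl ⟨hy₁, h⟩
  isOpen_sUnion := by
    rintro 𝒲 h𝒲 x ⟨W, hW, hx⟩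
    obtain ⟨U, hU, hxU, hc⟩ := h𝒲 W hW x hx
    refine ⟨U, hU, hxU, hc.mono ?_⟩
    rintro y ⟨hy1, hy2⟩
    exact ⟨hy1, fun h => hy2 ⟨W, hW, h⟩⟩

theorem isOpen_ext_iff {W : Set (Ext Y)} : IsOpen W ↔
    ∀ x ∈ W, ∃ U : Set Y, IsOpen U ∧ x.pt ∈ U ∧ (Ext.pt ⁻¹' U \ W).Countable :=
  Iff.rfl

theorem continuous_pt : Continuous (Ext.pt : Ext Y → Y) := by
  refine ⟨fun W hW => ?_⟩
  rw [isOpen_ext_iff]
  intro x hx
  exact ⟨W, hW, hx, by simp⟩

theorem isClosed_ext_of_countable {C : Set (Ext Y)} (hC : C.Countable) : IsClosed C := by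
  rw [← isOpen_compl_iff, isOpen_ext_iff]
  intro x _
  refine ⟨univ, isOpen_univ, mem_univ _, hC.mono ?_⟩
  rintro y ⟨_, hy⟩
  by_contra hcon
  exact hy hcon

theorem discrete_ext_of_countable {C : Set (Ext Y)} (hC : C.Countable) : DiscreteTopology C := by
  rw [discreteTopology_iff_forall_isClosed]
  intro s
  have h1 : IsClosed (Subtype.val '' s : Set (Ext Y)) :=
    isClosed_ext_of_countable (hC.mono (by rintro _ ⟨x, _, rfl⟩; exact x.2))
  have h2 := h1.preimage (continuous_subtype_val (p := fun x => x ∈ C))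
  rwa [preimage_image_eq _ Subtype.val_injective] at h2

instance [T2Space Y] : T2Space (Ext Y) := by
  constructor
  intro x y hxy
  have hxy' : x.pt ≠ y.pt := fun h => hxy (Ext.ext h)
  obtain ⟨U, V, hU, hV, hx, hy, hd⟩ := t2_separation hxy'
  exact ⟨_, _, hU.preimage continuous_pt, hV.preimage continuous_pt, hx, hy, hd.preimage _⟩

theorem menger_ext (h : Menger Y) : Menger (Ext Y) := by
  classical
  intro 𝒰 h𝒰
  rcases isEmpty_or_nonempty (Ext Y) with hE | ⟨⟨x₀⟩⟩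
  · exact ⟨fun _ => ∅, fun n => ⟨finite_empty, empty_subset _⟩, by
      rw [eq_univ_iff_forall]; exact fun x => (hE.false x).elim⟩
  have hne : Nonempty (Ext Y) := ⟨x₀⟩
  have hex : ∀ n (x : Ext Y), ∃ W ∈ 𝒰 n, x ∈ W ∧ ∃ U : Set Y, IsOpen U ∧ x.pt ∈ U ∧
      (Ext.pt ⁻¹' U \ W).Countable := by
    intro n x
    have : x ∈ ⋃₀ 𝒰 n := by rw [(h𝒰 n).2]; exact mem_univ x
    obtain ⟨W, hW, hx⟩ := this
    exact ⟨W, hW, hx, (h𝒰 n).1 W hW x hx⟩
  choose W hW hxW U hU hxU hc using hex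
  obtain ⟨𝓖, h𝓖, h𝓖c⟩ := h (fun n => range (U (2 * n))) (fun n => ⟨by
    rintro _ ⟨x, rfl⟩; exact hU _ x, by
    rw [sUnion_range, eq_univ_iff_forall]
    exact fun x => mem_iUnion.2 ⟨⟨x⟩, hxU _ ⟨x⟩⟩⟩)
  -- finite sets of points
  have hpts : ∀ n, ∃ F : Set (Ext Y), F.Finite ∧ U (2 * n) '' F = 𝓖 n := by
    intro n
    have hg : ∀ G ∈ 𝓖 n, ∃ x, U (2 * n) x = G := fun G hG => (h𝓖 n).2 hG
    choose! g hg using hg
    refine ⟨g '' 𝓖 n, (h𝓖 n).1.image g, ?_⟩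
    rw [image_image]
    ext G
    constructor
    · rintro ⟨G', hG', rfl⟩
      beta_reduce
      rw [hg G' hG']; exact hG'
    · intro hG
      exact ⟨G, hG, hg G hG⟩
  choose F hF hFe using hpts
  -- the rest is countable
  set D : Set (Ext Y) := ⋃ n, ⋃ x ∈ F n, (Ext.pt ⁻¹' (U (2 * n) x) \ W (2 * n) x) with hD
  have hDc : D.Countable := countable_iUnion fun n => (hF n).countable.biUnion fun x _ => hc _ x
  obtain ⟨e, he⟩ := (hDc.insert x₀).exists_eq_range (insert_nonempty _ _)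
  refine ⟨fun n => if n % 2 = 0 then W n '' F (n / 2) else {W n (e (n / 2))}, ?_, ?_⟩
  · intro n
    beta_reduce
    split_ifs with hn
    · exact ⟨(hF _).image _, by rintro _ ⟨x, _, rfl⟩; exact hW _ _⟩
    · exact ⟨finite_singleton _, by rintro _ rfl; exact hW _ _⟩
  · rw [eq_univ_iff_forall]
    intro x
    by_cases hx : x ∈ D
    · have : x ∈ range e := by rw [← he]; exact mem_insert_of_mem _ hx
      obtain ⟨k, rfl⟩ := this
      refine mem_iUnion.2 ⟨2 * k + 1, ?_⟩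
      have h1 : ¬ (2 * k + 1) % 2 = 0 := by omega
      have h2 : (2 * k + 1) / 2 = k := by omega
      beta_reduce
      rw [if_neg h1, h2, sUnion_singleton]
      exact hxW _ _
    · have h1 : x.pt ∈ ⋃ n, ⋃₀ 𝓖 n := by rw [h𝓖c]; exact mem_univ _
      obtain ⟨n, G, hG, hxG⟩ := mem_iUnion.1 h1
      rw [← hFe n] at hG
      obtain ⟨y, hy, rfl⟩ := hG
      refine mem_iUnion.2 ⟨2 * n, ?_⟩
      have h1 : (2 * n) % 2 = 0 := by omega
      have h2 : 2 * n / 2 = n := by omega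
      beta_reduce
      rw [if_pos h1, h2]
      refine ⟨W (2 * n) y, ⟨y, hy, rfl⟩, ?_⟩
      by_contra hcon
      exact hx (mem_iUnion.2 ⟨n, mem_iUnion₂.2 ⟨y, hy, hxG, hcon⟩⟩)

/-- Bob wins PONAG on `Ext Y`. -/
theorem bobWinsPONAG_ext (h : Menger Y) : BobWinsPONAG (Ext Y) := by
  classical
  have hM := menger_ext h
  have hfirst : ∀ V : PONA (Ext Y), (⋃ x, V.nb x) = univ → ∃ D : Set (Ext Y), D ⊆ V.dom ∧
      D.Countable ∧ V.sel D = univ := by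
    intro V hV
    obtain ⟨𝓕, h𝓕, hcov⟩ := hM (fun _ => range V.nb) (fun _ => ⟨by
      rintro _ ⟨x, rfl⟩; exact V.isOpen_nb x, by rw [sUnion_range, hV]⟩)
    have hc : (⋃ n, 𝓕 n).Countable := countable_iUnion fun n => (h𝓕 n).1.countable
    have hsub : (⋃ n, 𝓕 n) ⊆ range V.nb := iUnion_subset fun n => (h𝓕 n).2
    have hch : ∀ U ∈ ⋃ n, 𝓕 n, ∃ x : V.dom, V.nb x = U := fun U hU => hsub hU
    rcases isEmpty_or_nonempty V.dom with hE | hne
    · refine ⟨∅, empty_subset _, countable_empty, ?_⟩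
      rw [← hV, PONA.sel]
      simp
    choose! g hg using hch
    refine ⟨(fun U => ((g U : V.dom) : Ext Y)) '' (⋃ n, 𝓕 n), ?_, hc.image _, ?_⟩
    · rintro _ ⟨U, _, rfl⟩; exact (g U).2
    · rw [eq_univ_iff_forall]
      intro x
      have : x ∈ ⋃ n, ⋃₀ 𝓕 n := by rw [hcov]; exact mem_univ x
      obtain ⟨n, U, hU, hxU⟩ := mem_iUnion.1 this
      have hU' : U ∈ ⋃ n, 𝓕 n := mem_iUnion.2 ⟨n, hU⟩
      refine mem_iUnion₂.2 ⟨g U, ⟨U, hU', rfl⟩, ?_⟩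
      rw [hg U hU']
      exact hxU
  choose! d hd1 hd2 hd3 using hfirst
  refine ⟨fun p V => if p = [] then d V else ∅, ?_⟩
  intro V D hV hD
  have h0 : D 0 = d (V 0) := by rw [hD 0]; simp
  have hcov0 : (⋃ x, (V 0).nb x) = univ := by
    have := (hV 0).2
    simpa using this
  have hsel0 : (V 0).sel (D 0) = univ := by rw [h0]; exact hd3 _ hcov0
  refine ⟨?_, ?_⟩
  · intro n
    rcases Nat.eq_zero_or_pos n with rfl | hn
    · rw [h0]
      exact ⟨hd1 _ hcov0, isClosed_ext_of_countable (hd2 _ hcov0),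
        discrete_ext_of_countable (hd2 _ hcov0)⟩
    · have h1 : D n = ∅ := by
        rw [hD n]
        apply if_neg
        intro h
        have := congrArg List.length h
        simp at this
        omega
      rw [h1]
      exact ⟨empty_subset _, isClosed_empty, by infer_instance⟩
  · rw [eq_univ_iff_forall]
    exact fun x => mem_iUnion.2 ⟨0, by rw [hsel0]; exact mem_univ x⟩

/-- a winning strategy of Bob on `Ext Y` gives one on `Y`. -/
theorem bobWins_of_ext (h : BobWinsMengerGame (Ext Y)) : BobWinsMengerGame Y := by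
  obtain ⟨σ, hσ⟩ := h
  -- translate sets
  let up : Set (Set Y) → Set (Set (Ext Y)) := fun 𝒰 => (fun U => Ext.pt ⁻¹' U) '' 𝒰
  let dn : Set (Set (Ext Y)) → Set (Set Y) := fun 𝒰 => (fun U => (Ext.mk ⁻¹' U)) '' 𝒰
  have hdnup : ∀ 𝒰, dn (up 𝒰) = 𝒰 := by
    intro 𝒰
    simp only [dn, up, image_image]
    have : ∀ U : Set Y, Ext.mk ⁻¹' (Ext.pt ⁻¹' U) = U := fun U => rfl
    simp [this]
  have hupdn : ∀ 𝒰, up (dn 𝒰) = 𝒰 := by
    intro 𝒰
    simp only [dn, up, image_image]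
    have : ∀ U : Set (Ext Y), Ext.pt ⁻¹' (Ext.mk ⁻¹' U) = U := fun U => rfl
    simp [this]
  refine ⟨fun p 𝒰 => dn (σ (p.map fun q => (up q.1, up q.2)) (up 𝒰)), ?_⟩
  intro 𝒰 𝓕 h𝒰 h𝓕
  have hcov : ∀ n, OpenCover (Ext Y) (up (𝒰 n)) := by
    intro n
    refine ⟨?_, ?_⟩
    · rintro _ ⟨U, hU, rfl⟩
      exact ((h𝒰 n).1 U hU).preimage continuous_pt
    · rw [eq_univ_iff_forall]
      intro x
      have : x.pt ∈ ⋃₀ 𝒰 n := by rw [(h𝒰 n).2]; exact mem_univ _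
      obtain ⟨U, hU, hx⟩ := this
      exact ⟨Ext.pt ⁻¹' U, ⟨U, hU, rfl⟩, hx⟩
  obtain ⟨h1, h2⟩ := hσ (fun n => up (𝒰 n)) (fun n => up (𝓕 n)) hcov (by
    intro n
    rw [h𝓕 n]
    simp only [hupdn, List.map_ofFn, Function.comp_def])
  refine ⟨fun n => ⟨?_, ?_⟩, ?_⟩
  · have := (h1 n).1.image (fun U => (Ext.mk ⁻¹' U))
    rwa [show (fun U => (Ext.mk ⁻¹' U)) '' (up (𝓕 n)) = dn (up (𝓕 n)) from rfl, hdnup] at this
  · have : dn (up (𝓕 n)) ⊆ dn (up (𝒰 n)) := image_mono (h1 n).2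
    rwa [hdnup, hdnup] at this
  · rw [eq_univ_iff_forall]
    intro x
    have : (⟨x⟩ : Ext Y) ∈ ⋃ n, ⋃₀ up (𝓕 n) := by rw [h2]; exact mem_univ _
    obtain ⟨n, _, ⟨U, hU, rfl⟩, hx⟩ := mem_iUnion.1 this
    exact mem_iUnion.2 ⟨n, U, hU, hx⟩

end MP4977a6
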