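import Mathlib

open Set Topology Filter Cardinal

namespace MP4977a6

/-- boundedness in the order of eventual domination -/
def Bdd (A : Set (ℕ → ℕ)) : Prop := ∃ g : ℕ → ℕ, ∀ f ∈ A, ∀ᶠ n in atTop, f n ≤ g n

theorem Bdd.of_countable {A : Set (ℕ → ℕ)} (hA : A.Countable) : Bdd A := by
  rcases A.eq_empty_or_nonempty with rfl | hne
  · exact ⟨0, by simp⟩
  · obtain ⟨e, rfl⟩ := hA.exists_eq_range hne
    refine ⟨fun n => ∑ k ∈ Finset.range (n + 1), e k n, ?_⟩
    rintro _ ⟨k, rfl⟩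
    filter_upwards [eventually_ge_atTop k] with n hn
    exact Finset.single_le_sum (f := fun k => e k n) (fun _ _ => Nat.zero_le _)
      (Finset.mem_range.2 (by omega))

theorem not_bdd_univ : ¬ Bdd univ := by
  rintro ⟨g, hg⟩
  have := hg (fun n => g n + 1) (mem_univ _)
  obtain ⟨n, hn⟩ := this.exists
  omega

/-- the bounding number -/
noncomputable def kap : Cardinal.{0} := sInf {c | ∃ A : Set (ℕ → ℕ), #A = c ∧ ¬ Bdd A}

theorem kap_mem : ∃ A : Set (ℕ → ℕ), #A = kap ∧ ¬ Bdd A :=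
  csInf_mem (s := {c | ∃ A : Set (ℕ → ℕ), #A = c ∧ ¬ Bdd A}) ⟨#(univ : Set (ℕ → ℕ)), univ, rfl, not_bdd_univ⟩

theorem bdd_of_lt {A : Set (ℕ → ℕ)} (h : #A < kap) : Bdd A := by
  by_contra hA
  exact notMem_of_lt_csInf' h ⟨A, rfl, hA⟩

theorem kap_le : kap ≤ #(ℕ → ℕ) := by
  obtain ⟨A, hA, _⟩ := kap_mem
  rw [← hA]
  exact mk_set_le A

/-- existence of the scale-like set `S`. -/
theorem exists_S : ∃ S : Set (ℕ → ℕ), ¬ S.Countable ∧
    ∀ g : ℕ → ℕ, #{f ∈ S | ∀ᶠ n in atTop, f n ≤ g n} < kap := by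
  obtain ⟨A, hAc, hA⟩ := kap_mem
  let ι := kap.ord.ToType
  have hι : #ι = kap := mk_ord_toType kap
  have hIio : ∀ i : ι, #(Iio i) < kap := fun i => mk_Iio_toType_ord_lt i
  have e : ι ≃ A := (Cardinal.eq.1 (hι.trans hAc.symm)).some
  -- the recursion
  have hstep : ∀ (i : ι) (F : (j : ι) → j < i → (ℕ → ℕ)), ∃ h : ℕ → ℕ,
      (∀ j (hj : j < i), ∀ᶠ n in atTop, F j hj n ≤ h n) := by
    intro i F
    have hb : Bdd (range fun j : Iio i => F j.1 j.2) :=
      bdd_of_lt (lt_of_le_of_lt mk_range_le (hIio i))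
    obtain ⟨h, hh⟩ := hb
    exact ⟨h, fun j hj => hh _ ⟨⟨j, hj⟩, rfl⟩⟩
  choose H hH using hstep
  let F : ι → (ℕ → ℕ) := WellFounded.fix (wellFounded_lt (α := ι))
    (fun i F n => max (H i F n) ((e i : ℕ → ℕ) n))
  have hF : ∀ i, F i = fun n => max (H i (fun j _ => F j) n) ((e i : ℕ → ℕ) n) := by
    intro i
    exact WellFounded.fix_eq _ _ i
  have hmono : ∀ i j, j < i → ∀ᶠ n in atTop, F j n ≤ F i n := by
    intro i j hj
    filter_upwards [hH i (fun j _ => F j) j hj] with n hn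
    rw [hF i]
    exact hn.trans (le_max_left _ _)
  have hge : ∀ i n, (e i : ℕ → ℕ) n ≤ F i n := by
    intro i n; rw [hF i]; exact le_max_right _ _
  have hunb : ∀ g : ℕ → ℕ, ∃ i, ¬ ∀ᶠ n in atTop, F i n ≤ g n := by
    intro g
    by_contra hcon
    push Not at hcon
    apply hA
    refine ⟨g, fun f hf => ?_⟩
    have h1 := hcon (e.symm ⟨f, hf⟩)
    filter_upwards [h1] with n hn
    have h2 := hge (e.symm ⟨f, hf⟩) n
    simp only [Equiv.apply_symm_apply] at h2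
    exact h2.trans hn
  refine ⟨range F, ?_, ?_⟩
  · intro hc
    obtain ⟨g, hg⟩ := Bdd.of_countable hc
    obtain ⟨i, hi⟩ := hunb g
    exact hi (hg _ ⟨i, rfl⟩)
  · intro g
    obtain ⟨i, hi⟩ := hunb g
    have hsub : {f ∈ range F | ∀ᶠ n in atTop, f n ≤ g n} ⊆ F '' Iio i := by
      rintro _ ⟨⟨j, rfl⟩, hj⟩
      refine ⟨j, ?_, rfl⟩
      rw [mem_Iio]
      by_contra hji
      rcases (not_lt.1 hji).eq_or_lt with h | h
      · subst h; exact hi hj
      · apply hi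
        filter_upwards [hj, hmono j i h] with n h1 h2 using h2.trans h1
    exact (mk_le_mk_of_subset hsub).trans_lt (mk_image_le.trans_lt (hIio i))

end MP4977a6
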