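import Pool.Agent.Q181.Ponag.Ext

open Set Topology Filter

namespace MP4977a6

/-- the Menger property of a subset, for covers by open subsets of the ambient space -/
def MengerSet {Z : Type*} [TopologicalSpace Z] (A : Set Z) : Prop :=
  ∀ 𝒰 : ℕ → Set (Set Z), (∀ n, (∀ U ∈ 𝒰 n, IsOpen U) ∧ A ⊆ ⋃₀ 𝒰 n) →
    ∃ 𝓕 : ℕ → Set (Set Z), (∀ n, (𝓕 n).Finite ∧ 𝓕 n ⊆ 𝒰 n) ∧ A ⊆ ⋃ n, ⋃₀ 𝓕 n

section General

variable {Z : Type*} [TopologicalSpace Z]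

theorem mengerSet_iUnion_isCompact (K : ℕ → Set Z) (hK : ∀ n, IsCompact (K n)) :
    MengerSet (⋃ n, K n) := by
  intro 𝒰 h𝒰
  have h : ∀ n, ∃ 𝓕 : Set (Set Z), 𝓕.Finite ∧ 𝓕 ⊆ 𝒰 n ∧ K n ⊆ ⋃₀ 𝓕 := by
    intro n
    obtain ⟨t, ht⟩ := (hK n).elim_finite_subcover (fun U : 𝒰 n => U.1)
      (fun U => (h𝒰 n).1 U.1 U.2)
      (by rw [← sUnion_eq_iUnion]; exact (subset_iUnion K n).trans (h𝒰 n).2)
    refine ⟨Subtype.val '' (t : Set (𝒰 n)), t.finite_toSet.image _, ?_, ?_⟩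
    · rintro _ ⟨U, _, rfl⟩; exact U.2
    · intro x hx
      obtain ⟨U, hU, hxU⟩ := mem_iUnion₂.1 (ht hx)
      exact ⟨U.1, ⟨U, hU, rfl⟩, hxU⟩
  choose 𝓕 h1 h2 h3 using h
  exact ⟨𝓕, fun n => ⟨h1 n, h2 n⟩, iUnion_subset fun n => (h3 n).trans (subset_iUnion (fun n => ⋃₀ 𝓕 n) n)⟩

theorem MengerSet.union_of_residual {A B : Set Z} (hA : MengerSet A)
    (hB : ∀ U, IsOpen U → A ⊆ U → MengerSet (B \ U)) : MengerSet (A ∪ B) := by
  intro 𝒰 h𝒰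
  obtain ⟨𝓕, h𝓕, hcov⟩ := hA (fun n => 𝒰 (2 * n))
    (fun n => ⟨(h𝒰 _).1, subset_union_left.trans (h𝒰 _).2⟩)
  have hU : IsOpen (⋃ n, ⋃₀ 𝓕 n) :=
    isOpen_iUnion fun n => isOpen_sUnion fun U hU => (h𝒰 _).1 U ((h𝓕 n).2 hU)
  obtain ⟨𝓖, h𝓖, hcov'⟩ := hB _ hU hcov (fun n => 𝒰 (2 * n + 1))
    (fun n => ⟨(h𝒰 _).1, (sdiff_subset.trans subset_union_right).trans (h𝒰 _).2⟩)
  refine ⟨fun n => if n % 2 = 0 then 𝓕 (n / 2) else 𝓖 (n / 2), ?_, ?_⟩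
  · intro n
    beta_reduce
    split_ifs with hn
    · have := h𝓕 (n / 2)
      rwa [show 2 * (n / 2) = n by omega] at this
    · have := h𝓖 (n / 2)
      rwa [show 2 * (n / 2) + 1 = n by omega] at this
  · have e1 : (⋃ n, ⋃₀ 𝓕 n) ⊆ ⋃ n, ⋃₀ (if n % 2 = 0 then 𝓕 (n / 2) else 𝓖 (n / 2)) := by
      apply iUnion_subset
      intro n x hx
      refine mem_iUnion.2 ⟨2 * n, ?_⟩
      rw [if_pos (by omega), show 2 * n / 2 = n by omega]
      exact hx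
    have e2 : (⋃ n, ⋃₀ 𝓖 n) ⊆ ⋃ n, ⋃₀ (if n % 2 = 0 then 𝓕 (n / 2) else 𝓖 (n / 2)) := by
      apply iUnion_subset
      intro n x hx
      refine mem_iUnion.2 ⟨2 * n + 1, ?_⟩
      rw [if_neg (by omega), show (2 * n + 1) / 2 = n by omega]
      exact hx
    rintro x (hx | hx)
    · exact e1 (hcov hx)
    · by_cases hxU : x ∈ ⋃ n, ⋃₀ 𝓕 n
      · exact e1 hxU
      · exact e2 (hcov' ⟨hx, hxU⟩)

theorem mengerSet_of_small [SecondCountableTopology Z] {A : Set Z} {S : Set (ℕ → ℕ)}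
    (hS : Cardinal.mk S < kap) (E : (ℕ → ℕ) → Z) (hA : A ⊆ E '' S) : MengerSet A := by
  classical
  intro 𝒰 h𝒰
  rcases A.eq_empty_or_nonempty with rfl | hne
  · exact ⟨fun _ => ∅, fun n => ⟨finite_empty, empty_subset _⟩, empty_subset _⟩
  have hsub : ∀ n, ∃ u : ℕ → Set Z, (∀ k, u k ∈ 𝒰 n) ∧ A ⊆ ⋃ k, u k := by
    intro n
    obtain ⟨T, hTc, hTs, hTe⟩ := TopologicalSpace.isOpen_sUnion_countable (𝒰 n) (h𝒰 n).1
    obtain ⟨a, ha⟩ := hne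
    have hTne : T.Nonempty := by
      have : a ∈ ⋃₀ T := by rw [hTe]; exact (h𝒰 n).2 ha
      obtain ⟨U, hU, _⟩ := this
      exact ⟨U, hU⟩
    obtain ⟨u, hu⟩ := hTc.exists_eq_range hTne
    refine ⟨u, fun k => hTs (by rw [hu]; exact ⟨k, rfl⟩), ?_⟩
    rw [← sUnion_range, ← hu, hTe]
    exact (h𝒰 n).2
  choose u hu1 hu2 using hsub
  have hidx : ∀ (f : ℕ → ℕ) (n : ℕ), ∃ k, E f ∈ A → E f ∈ u n k := by
    intro f n
    by_cases hf : E f ∈ A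
    · obtain ⟨k, hk⟩ := mem_iUnion.1 (hu2 n hf)
      exact ⟨k, fun _ => hk⟩
    · exact ⟨0, fun h => absurd h hf⟩
  choose φ hφ using hidx
  have hsmall : Cardinal.mk (φ '' S) < kap := Cardinal.mk_image_le.trans_lt hS
  obtain ⟨g, hg⟩ := bdd_of_lt hsmall
  refine ⟨fun n => u n '' Iic (g n), fun n => ⟨(finite_Iic _).image _, ?_⟩, ?_⟩
  · rintro _ ⟨k, _, rfl⟩; exact hu1 n k
  · intro x hx
    obtain ⟨f, hf, rfl⟩ := hA hx
    obtain ⟨n, hn⟩ := (hg (φ f) ⟨f, hf, rfl⟩).exists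
    exact mem_iUnion.2 ⟨n, u n (φ f n), ⟨φ f n, hn, rfl⟩, hφ f n hx⟩

theorem menger_of_mengerSet {A : Set Z} (hA : MengerSet A) : Menger A := by
  intro 𝒰 h𝒰
  obtain ⟨𝓕, h𝓕, hcov⟩ := hA (fun n => {V | IsOpen V ∧ (Subtype.val ⁻¹' V : Set A) ∈ 𝒰 n}) (by
    intro n
    refine ⟨fun U hU => hU.1, ?_⟩
    intro x hx
    have : (⟨x, hx⟩ : A) ∈ ⋃₀ 𝒰 n := by rw [(h𝒰 n).2]; exact mem_univ _
    obtain ⟨U, hU, hxU⟩ := this
    obtain ⟨V, hV, rfl⟩ := isOpen_induced_iff.1 ((h𝒰 n).1 U hU)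
    exact ⟨V, ⟨hV, hU⟩, hxU⟩)
  refine ⟨fun n => (fun V => (Subtype.val ⁻¹' V : Set A)) '' 𝓕 n, fun n => ⟨(h𝓕 n).1.image _, ?_⟩, ?_⟩
  · rintro _ ⟨V, hV, rfl⟩
    exact ((h𝓕 n).2 hV).2
  · rw [eq_univ_iff_forall]
    rintro ⟨x, hx⟩
    obtain ⟨n, V, hV, hxV⟩ := mem_iUnion.1 (hcov hx)
    exact mem_iUnion.2 ⟨n, _, ⟨V, hV, rfl⟩, hxV⟩

end General

/-- the embedding of the Baire space -/
def E (f : ℕ → ℕ) : ℕ → ℕ∞ := fun n => (f n : ℕ∞)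

theorem continuous_E : Continuous E := by
  refine continuous_pi fun n => ?_
  exact (continuous_of_discreteTopology (f := fun k : ℕ => (k : ℕ∞))).comp (continuous_apply n)

theorem E_injective : Function.Injective E := by
  intro f g h
  funext n
  have := congrFun h n
  simpa [E] using this

/-- points at infinity -/
def Qset : Set (ℕ → ℕ∞) := ⋃ n, {x | x n = ⊤}

theorem compl_Q {x : ℕ → ℕ∞} (hx : x ∉ Qset) : ∃ f, E f = x := by
  simp only [Qset, mem_iUnion, mem_ofPred_eq, not_exists] at hx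
  refine ⟨fun n => (x n).toNat, ?_⟩
  funext n
  exact ENat.natCast_toNat (hx n)

theorem E_notMem (f : ℕ → ℕ) : E f ∉ Qset := by
  simp [Qset, E]

/-- the space -/
def Yset (S : Set (ℕ → ℕ)) : Set (ℕ → ℕ∞) := Qset ∪ E '' S

theorem bounded_of_compact {K : Set (ℕ → ℕ∞)} (hK : IsCompact K) (hKQ : Disjoint K Qset) :
    ∃ g : ℕ → ℕ, ∀ f, E f ∈ K → ∀ n, f n ≤ g n := by
  rcases K.eq_empty_or_nonempty with rfl | hne
  · exact ⟨0, by simp⟩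
  have : ∀ n, ∃ m : ℕ, ∀ f, E f ∈ K → f n ≤ m := by
    intro n
    obtain ⟨x, hx, hmax⟩ := hK.exists_isMaxOn hne (continuous_apply n).continuousOn
    obtain ⟨f0, rfl⟩ := compl_Q (Set.disjoint_left.1 hKQ hx)
    refine ⟨f0 n, fun f hf => ?_⟩
    have := hmax hf
    simpa [E] using this
  choose g hg using this
  exact ⟨g, fun f hf n => hg n f hf⟩

theorem mengerSet_Y (S : Set (ℕ → ℕ))
    (hS : ∀ g : ℕ → ℕ, Cardinal.mk {f ∈ S | ∀ᶠ n in atTop, f n ≤ g n} < kap) :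
    MengerSet (Yset S) := by
  have hQ : MengerSet Qset := by
    apply mengerSet_iUnion_isCompact
    intro n
    have : IsClosed {x : ℕ → ℕ∞ | x n = ⊤} := isClosed_eq (continuous_apply n) continuous_const
    exact this.isCompact
  apply hQ.union_of_residual
  intro U hU hQU
  have hK : IsCompact Uᶜ := hU.isClosed_compl.isCompact
  obtain ⟨g, hg⟩ := bounded_of_compact hK (disjoint_compl_left.mono_right hQU)
  apply mengerSet_of_small (hS g) E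
  rintro _ ⟨⟨f, hf, rfl⟩, hfU⟩
  exact ⟨f, ⟨hf, Eventually.of_forall (hg f hfU)⟩, rfl⟩

theorem not_sigma_compact (S : Set (ℕ → ℕ)) (hS1 : ¬ S.Countable)
    (hS : ∀ g : ℕ → ℕ, Cardinal.mk {f ∈ S | ∀ᶠ n in atTop, f n ≤ g n} < kap)
    (K : List ℕ → Set (Yset S)) (hK : ∀ s, IsCompact (K s)) (hcov : ⋃ s, K s = univ) : False := by
  have hKc : ∀ s, IsCompact (Subtype.val '' K s : Set (ℕ → ℕ∞)) := fun s =>
    (hK s).image continuous_subtype_val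
  have hcov' : S ⊆ ⋃ s, E ⁻¹' (Subtype.val '' K s) := by
    intro f hf
    have hmem : E f ∈ Yset S := Or.inr ⟨f, hf, rfl⟩
    have : (⟨E f, hmem⟩ : Yset S) ∈ ⋃ s, K s := by rw [hcov]; exact mem_univ _
    obtain ⟨s, hs⟩ := mem_iUnion.1 this
    exact mem_iUnion.2 ⟨s, ⟨⟨E f, hmem⟩, hs, rfl⟩⟩
  have hex : ∃ s, ¬ (E ⁻¹' (Subtype.val '' K s)).Countable := by
    by_contra hcon
    push Not at hcon
    exact hS1 ((countable_iUnion hcon).mono hcov')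
  obtain ⟨s, hs⟩ := hex
  have hsS : E ⁻¹' (Subtype.val '' K s) ⊆ S := by
    rintro f ⟨y, _, hy⟩
    rcases y.2 with h | ⟨f', hf', h⟩
    · rw [hy] at h; exact absurd h (E_notMem f)
    · rw [hy] at h
      rwa [← E_injective h]
  have hcl : IsClosed (E ⁻¹' (Subtype.val '' K s)) := (hKc s).isClosed.preimage continuous_E
  obtain ⟨c, hcr, hcc, hci⟩ := hcl.exists_nat_bool_injection_of_not_countable hs
  have hcpt : IsCompact (range c) := isCompact_range hcc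
  have hbd : ∃ g : ℕ → ℕ, ∀ f ∈ range c, ∀ n, f n ≤ g n := by
    have : ∀ n, ∃ m, ∀ f ∈ range c, f n ≤ m := by
      intro n
      have h1 : IsCompact ((fun f : ℕ → ℕ => f n) '' range c) := hcpt.image (continuous_apply n)
      obtain ⟨m, hm⟩ := h1.bddAbove
      exact ⟨m, fun f hf => hm ⟨f, hf, rfl⟩⟩
    choose g hg using this
    exact ⟨g, fun f hf n => hg n f hf⟩
  obtain ⟨g, hg⟩ := hbd
  have h1 : Cardinal.mk (range c) < kap := by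
    refine (Cardinal.mk_le_mk_of_subset ?_).trans_lt (hS g)
    intro f hf
    exact ⟨hsS (hcr hf), Eventually.of_forall (hg f hf)⟩
  have h2 : Cardinal.mk (range c) = Cardinal.mk (ℕ → Bool) := Cardinal.mk_range_eq c hci
  have h3 : Cardinal.mk (ℕ → Bool) = Cardinal.mk (ℕ → ℕ) := by
    simp
  rw [h2, h3] at h1
  exact absurd h1 (not_lt.2 kap_le)

end MP4977a6
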